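import Pool.Agent.Lib.MP_305fdd_al.Fr.P.Basic

/-!
# MP_305fdd_al, F_r: perturbation of real valuations, part 2: extension to algebraic extensions
-/

set_option autoImplicit false

namespace Pool.Agent.FrP

open Pool.Agent.F2Ch (IsV Triv)
open Polynomial
open scoped NNReal

section ext

variable {F E : Type} [Field F] [Field E] [Algebra F E]

/-- the valuation ring -/
theorem exists_ring (v : Valuation F ℝ≥0) : ∃ V : ValuationSubring E,
    ∀ a b : F, V.valuation (algebraMap F E a) ≤ V.valuation (algebraMap F E b) ↔ v a ≤ v b := by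
  have hinj : Function.Injective (algebraMap F E) := (algebraMap F E).injective
  let R : Subring E := v.integer.map (algebraMap F E)
  have hR : ∀ r : R, ∃ a : F, v a ≤ 1 ∧ algebraMap F E a = r := by
    rintro ⟨r, a, ha, rfl⟩
    exact ⟨a, ha, rfl⟩
  let P : Ideal R :=
    { carrier := {r | ∃ a : F, v a < 1 ∧ algebraMap F E a = r}
      zero_mem' := ⟨0, by rw [map_zero]; exact zero_lt_one, by rw [map_zero]; rfl⟩
      add_mem' := by
        rintro r s ⟨a, ha, hra⟩ ⟨b, hb, hsb⟩
        refine ⟨a + b, lt_of_le_of_lt (v.map_add a b) (max_lt ha hb), ?_⟩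
        rw [map_add, hra, hsb]
        rfl
      smul_mem' := by
        rintro c r ⟨a, ha, hra⟩
        obtain ⟨b, hb, hcb⟩ := hR c
        refine ⟨b * a, ?_, ?_⟩
        · rw [map_mul]
          exact mul_lt_one_of_nonneg_of_lt_one_right hb zero_le ha
        · rw [map_mul, hcb, hra]
          rfl }
  have hP : P.IsPrime := by
    constructor
    · intro h
      have h1 : (1 : R) ∈ P := by rw [h]; trivial
      obtain ⟨a, ha, ha1⟩ := h1
      have h2 : algebraMap F E a = algebraMap F E 1 := by rw [ha1, map_one]; rfl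
      rw [hinj h2, map_one] at ha
      exact lt_irrefl _ ha
    · rintro r s ⟨a, ha, hra⟩
      obtain ⟨b, hb, hrb⟩ := hR r
      obtain ⟨c, hc, hsc⟩ := hR s
      have h2 : algebraMap F E a = algebraMap F E (b * c) := by
        rw [hra, map_mul, hrb, hsc]
        rfl
      rw [hinj h2, map_mul] at ha
      rcases lt_or_eq_of_le hb with hb | hb
      · exact Or.inl ⟨b, hb, hrb⟩
      · rw [hb, one_mul] at ha
        exact Or.inr ⟨c, ha, hsc⟩
  obtain ⟨V, hV1, hV2⟩ := FrD.exists_dom R P
  refine ⟨V, ?_⟩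
  have hmem : ∀ a : F, algebraMap F E a ∈ V ↔ v a ≤ 1 := by
    intro a
    constructor
    · intro h
      by_contra hcon
      rw [not_le] at hcon
      have ha0 : a ≠ 0 := by
        rintro rfl
        rw [map_zero] at hcon
        exact absurd hcon (not_lt.2 zero_le_one)
      have h1 : v a⁻¹ < 1 := by
        rw [map_inv₀]
        exact inv_lt_one_of_one_lt₀ hcon
      have h2 : algebraMap F E a⁻¹ ∈ R := ⟨a⁻¹, h1.le, rfl⟩
      have h3 := (hV2 ⟨_, h2⟩).2 ⟨a⁻¹, h1, rfl⟩
      rw [ValuationSubring.mem_nonunits_iff] at h3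
      have h4 : V.valuation (algebraMap F E a) ≤ 1 := (V.valuation_le_one_iff _).2 h
      have h5 : V.valuation (algebraMap F E a⁻¹) * V.valuation (algebraMap F E a) = 1 := by
        rw [← map_mul, ← map_mul, inv_mul_cancel₀ ha0, map_one, map_one]
      have h6 : V.valuation (algebraMap F E a⁻¹) * V.valuation (algebraMap F E a) < 1 :=
        mul_lt_one_of_nonneg_of_lt_one_left zero_le h3 h4
      rw [h5] at h6
      exact lt_irrefl _ h6
    · intro h
      exact hV1 ⟨a, h, rfl⟩
  have h1 : (V.valuation.comap (algebraMap F E)).IsEquiv v := by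
    rw [Valuation.isEquiv_iff_val_le_one]
    intro a
    rw [Valuation.comap_apply, V.valuation_le_one_iff, hmem]
  intro a b
  have h2 := h1 a b
  rw [Valuation.comap_apply, Valuation.comap_apply] at h2
  exact h2

/-- commensurability -/
theorem exists_pow [Algebra.IsAlgebraic F E] (V : ValuationSubring E) {z : E} (hz : z ≠ 0) :
    ∃ (n : ℕ) (a : F), 1 ≤ n ∧ a ≠ 0 ∧ V.valuation z ^ n = V.valuation (algebraMap F E a) := by
  obtain ⟨g, hg0, hgz⟩ := Algebra.IsAlgebraic.isAlgebraic (R := F) z
  have hsum : ∑ i ∈ g.support, algebraMap F E (g.coeff i) * z ^ i = 0 := by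
    rw [aeval_eq_sum_range' (n := g.natDegree + 1) (Nat.lt_succ_self _)] at hgz
    rw [← hgz]
    apply Finset.sum_subset_zero_on_sdiff
    · intro i hi
      rw [Finset.mem_range]
      exact Nat.lt_succ_of_le (le_natDegree_of_mem_supp i hi)
    · intro i hi
      rw [Finset.mem_sdiff, mem_support_iff, not_not] at hi
      rw [hi.2, zero_smul]
    · intro i _
      rw [Algebra.smul_def]
  have hne : g.support.Nonempty := support_nonempty.2 hg0
  obtain ⟨i₀, hi₀⟩ := hne
  have hne0 : algebraMap F E (g.coeff i₀) * z ^ i₀ ≠ 0 :=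
    mul_ne_zero ((_root_.map_ne_zero _).2 (mem_support_iff.1 hi₀)) (pow_ne_zero _ hz)
  obtain ⟨i, hi, j, hj, hij, -, -, heq⟩ := FrD.two_terms V.valuation g.support
    (fun i => algebraMap F E (g.coeff i) * z ^ i) hsum hi₀ hne0
  have key : ∀ i j : ℕ, i < j → i ∈ g.support → j ∈ g.support →
      V.valuation (algebraMap F E (g.coeff i) * z ^ i) =
        V.valuation (algebraMap F E (g.coeff j) * z ^ j) →
      ∃ (n : ℕ) (a : F), 1 ≤ n ∧ a ≠ 0 ∧ V.valuation z ^ n = V.valuation (algebraMap F E a) := by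
    intro i j hij hi hj h
    have hi' := mem_support_iff.1 hi
    have hj' := mem_support_iff.1 hj
    refine ⟨j - i, g.coeff i / g.coeff j, by omega, div_ne_zero hi' hj', ?_⟩
    have hzi : V.valuation z ^ i ≠ 0 := pow_ne_zero _ ((Valuation.ne_zero_iff _).2 hz)
    have hgj : V.valuation (algebraMap F E (g.coeff j)) ≠ 0 :=
      (Valuation.ne_zero_iff _).2 ((_root_.map_ne_zero _).2 hj')
    rw [map_mul, map_mul, map_pow, map_pow] at h
    have hz1 : V.valuation z ^ j = V.valuation z ^ (j - i) * V.valuation z ^ i := by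
      rw [← pow_add]
      congr 1
      omega
    rw [hz1, ← mul_assoc] at h
    have h2 := mul_right_cancel₀ hzi h
    rw [map_div₀, map_div₀, h2]
    field_simp
  rcases lt_or_gt_of_ne hij with h | h
  · exact key i j h hi hj heq
  · exact key j i h hj hi heq.symm

/-- Real valuations extend to algebraic extensions. -/
theorem exists_ext [Algebra.IsAlgebraic F E] {x : F → ℝ} (hx : IsV x) :
    ∃ x' : E → ℝ, IsV x' ∧ ∀ a : F, x' (algebraMap F E a) = x a := by
  classical
  obtain ⟨v, hv⟩ := exists_toV hx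
  obtain ⟨V, hV⟩ := exists_ring (E := E) v
  have hvx : ∀ a b : F, a ≠ 0 → b ≠ 0 → (v a ≤ v b ↔ x b ≤ x a) := by
    intro a b ha hb
    rw [← NNReal.coe_le_coe, hv a ha, hv b hb, Real.exp_le_exp, neg_le_neg_iff]
  have hpow := fun (z : E) (hz : z ≠ 0) => exists_pow (F := F) V hz
  choose n a hn ha hna using hpow
  let x' : E → ℝ := fun z => if hz : z = 0 then 0 else x (a z hz) / (n z hz : ℝ)
  have hx' : ∀ z (hz : z ≠ 0), x' z = x (a z hz) / (n z hz : ℝ) := fun z hz => by
    simp only [x', dif_neg hz]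
  have hnR : ∀ z (hz : z ≠ 0), (0 : ℝ) < (n z hz : ℝ) := fun z hz => by
    have := hn z hz
    exact_mod_cast this
  -- comparison
  have key : ∀ (z : E) (hz : z ≠ 0) (m : ℕ) (b : F), 1 ≤ m → b ≠ 0 →
      (V.valuation z ^ m ≤ V.valuation (algebraMap F E b) ↔ x b ≤ m * x' z) := by
    intro z hz m b hm hb
    have h1 : V.valuation z ^ m ≤ V.valuation (algebraMap F E b) ↔
        (V.valuation z ^ m) ^ (n z hz) ≤ (V.valuation (algebraMap F E b)) ^ (n z hz) := by
      refine (pow_le_pow_iff_left₀ zero_le zero_le ?_).symm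
      have := hn z hz
      omega
    rw [h1, ← pow_mul, mul_comm m, pow_mul, hna z hz, ← map_pow, ← map_pow, ← map_pow, ← map_pow,
      hV, hvx _ _ (pow_ne_zero _ (ha z hz)) (pow_ne_zero _ hb), V_pow hx (ha z hz), V_pow hx hb,
      hx' z hz]
    have h2 := hnR z hz
    constructor
    · intro h
      rw [← mul_div_assoc, le_div_iff₀ h2]
      linarith
    · intro h
      rw [← mul_div_assoc, le_div_iff₀ h2] at h
      linarith
  have keyeq : ∀ (z : E) (hz : z ≠ 0) (m : ℕ) (b : F), 1 ≤ m → b ≠ 0 →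
      V.valuation z ^ m = V.valuation (algebraMap F E b) → x b = m * x' z := by
    intro z hz m b hm hb h
    apply le_antisymm ((key z hz m b hm hb).1 h.le)
    have h1 : V.valuation (algebraMap F E (b ^ n z hz)) ≤
        V.valuation (algebraMap F E (a z hz ^ m)) := by
      rw [map_pow, map_pow, map_pow, map_pow, ← hna z hz, ← h, ← pow_mul, ← pow_mul, mul_comm m]
    rw [hV, hvx _ _ (pow_ne_zero _ hb) (pow_ne_zero _ (ha z hz)), V_pow hx hb,
      V_pow hx (ha z hz)] at h1
    rw [hx' z hz, ← mul_div_assoc, div_le_iff₀ (hnR z hz)]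
    linarith
  have mono : ∀ z w : E, z ≠ 0 → w ≠ 0 → (V.valuation z ≤ V.valuation w ↔ x' w ≤ x' z) := by
    intro z w hz hw
    have h1 : V.valuation z ≤ V.valuation w ↔
        V.valuation z ^ (n w hw) ≤ V.valuation w ^ (n w hw) := by
      refine (pow_le_pow_iff_left₀ zero_le zero_le ?_).symm
      have := hn w hw
      omega
    rw [h1, hna w hw, key z hz _ _ (hn w hw) (ha w hw)]
    have h2 : x (a w hw) = n w hw * x' w := keyeq w hw _ _ (hn w hw) (ha w hw) (hna w hw)
    rw [h2]
    exact mul_le_mul_iff_of_pos_left (hnR w hw)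
  refine ⟨x', ⟨by simp only [x', dif_pos], ?_, ?_⟩, ?_⟩
  · intro z w hz hw
    have hzw := mul_ne_zero hz hw
    have hb : a z hz ^ n w hw * a w hw ^ n z hz ≠ 0 :=
      mul_ne_zero (pow_ne_zero _ (ha z hz)) (pow_ne_zero _ (ha w hw))
    have h1 := keyeq (z * w) hzw (n z hz * n w hw) (a z hz ^ n w hw * a w hw ^ n z hz)
      (Nat.one_le_iff_ne_zero.2 (Nat.mul_ne_zero (by have := hn z hz; omega)
        (by have := hn w hw; omega))) hb (by
        rw [map_mul, mul_pow, pow_mul, hna z hz, mul_comm (n z hz), pow_mul, hna w hw, map_mul,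
          map_mul, map_pow, map_pow, map_pow, map_pow])
    rw [hx.mul _ _ (pow_ne_zero _ (ha z hz)) (pow_ne_zero _ (ha w hw)), V_pow hx (ha z hz),
      V_pow hx (ha w hw)] at h1
    have h2 : x (a z hz) = n z hz * x' z := keyeq z hz _ _ (hn z hz) (ha z hz) (hna z hz)
    have h3 : x (a w hw) = n w hw * x' w := keyeq w hw _ _ (hn w hw) (ha w hw) (hna w hw)
    rw [h2, h3] at h1
    have h4 := hnR z hz
    have h5 := hnR w hw
    push_cast at h1
    have h6 : ((n z hz : ℝ) * n w hw) * (x' (z * w)) = ((n z hz : ℝ) * n w hw) * (x' z + x' w) := by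
      linarith
    exact mul_left_cancel₀ (mul_pos h4 h5).ne' h6
  · intro z w hz hw hzw
    rcases le_total (V.valuation z) (V.valuation w) with h1 | h1
    · have h2 : V.valuation (z + w) ≤ V.valuation w :=
        (V.valuation.map_add z w).trans (max_le h1 le_rfl)
      exact (min_le_right _ _).trans ((mono _ _ hzw hw).mp h2)
    · have h2 : V.valuation (z + w) ≤ V.valuation z :=
        (V.valuation.map_add z w).trans (max_le le_rfl h1)
      exact (min_le_left _ _).trans ((mono _ _ hzw hz).mp h2)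
  · intro b
    by_cases hb : b = 0
    · rw [hb, map_zero, hx.zero]
      simp only [x', dif_pos]
    · have hb' : algebraMap F E b ≠ 0 := (_root_.map_ne_zero _).2 hb
      have h1 := keyeq (algebraMap F E b) hb' 1 b le_rfl hb (by rw [pow_one])
      rw [h1, Nat.cast_one, one_mul]

/-- the extension is trivial on the constants -/
theorem triv_ext {k : Type} [Field k] [Algebra k F] [Algebra k E] [IsScalarTower k F E]
    {x : F → ℝ} {x' : E → ℝ} (h : ∀ a : F, x' (algebraMap F E a) = x a) (hk : Triv k x) :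
    Triv k x' := by
  intro c
  rw [IsScalarTower.algebraMap_apply k F E, h, hk]

end ext

end Pool.Agent.FrP
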