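import Pool.Agent.Lib.MP_305fdd_al.Fr.D.Val
import Pool.Agent.Lib.MP_305fdd_al.F2.ChDefs

/-!
# MP_305fdd_al, F_r: perturbation of real valuations, part 1: Newton polygons

`exists_tie`: at a root of a polynomial the minimum of the values of the terms is attained twice.
`exists_root`: if the minimum for the weight `γ` is attained twice, then a split polynomial has a root of value `γ`.
-/

set_option autoImplicit false

namespace Pool.Agent.FrP

open Pool.Agent.F2Ch (IsV Triv)
open Polynomial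
open scoped NNReal

section basic

variable {K : Type} [Field K] {x : K → ℝ}

theorem V_one (hx : IsV x) : x 1 = 0 := by
  have := hx.mul 1 1 one_ne_zero one_ne_zero
  rw [mul_one] at this
  linarith

theorem V_neg_one (hx : IsV x) : x (-1) = 0 := by
  have := hx.mul (-1) (-1) (neg_ne_zero.2 one_ne_zero) (neg_ne_zero.2 one_ne_zero)
  rw [neg_mul_neg, one_mul, V_one hx] at this
  linarith

theorem V_neg (hx : IsV x) (a : K) : x (-a) = x a := by
  by_cases ha : a = 0
  · rw [ha, neg_zero]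
  · rw [← neg_one_mul, hx.mul _ _ (neg_ne_zero.2 one_ne_zero) ha, V_neg_one hx, zero_add]

theorem V_inv (hx : IsV x) {a : K} (ha : a ≠ 0) : x a⁻¹ = -x a := by
  have := hx.mul a a⁻¹ ha (inv_ne_zero ha)
  rw [mul_inv_cancel₀ ha, V_one hx] at this
  linarith

theorem V_pow (hx : IsV x) {a : K} (ha : a ≠ 0) (n : ℕ) : x (a ^ n) = n * x a := by
  induction n with
  | zero => rw [pow_zero, V_one hx, Nat.cast_zero, zero_mul]
  | succ k ih =>
    rw [pow_succ, hx.mul _ _ (pow_ne_zero k ha) ha, ih]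
    push_cast
    ring

theorem V_prod (hx : IsV x) {ι : Type} (s : Finset ι) (f : ι → K) (hf : ∀ i ∈ s, f i ≠ 0) :
    x (∏ i ∈ s, f i) = ∑ i ∈ s, x (f i) := by
  classical
  induction s using Finset.induction_on with
  | empty => rw [Finset.prod_empty, Finset.sum_empty, V_one hx]
  | insert a s ha ih =>
    rw [Finset.prod_insert ha, Finset.sum_insert ha, hx.mul, ih]
    · exact fun i hi => hf i (Finset.mem_insert_of_mem hi)
    · exact hf a (Finset.mem_insert_self _ _)
    · exact Finset.prod_ne_zero_iff.2 fun i hi => hf i (Finset.mem_insert_of_mem hi)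

theorem V_mprod (hx : IsV x) (s : Multiset K) (hs : ∀ a ∈ s, a ≠ 0) :
    x s.prod = (s.map x).sum := by
  induction s using Multiset.induction_on with
  | empty => rw [Multiset.prod_zero, Multiset.map_zero, Multiset.sum_zero, V_one hx]
  | cons a s ih =>
    rw [Multiset.prod_cons, Multiset.map_cons, Multiset.sum_cons, hx.mul, ih]
    · exact fun i hi => hs i (Multiset.mem_cons_of_mem hi)
    · exact hs a (Multiset.mem_cons_self _ _)
    · exact Multiset.prod_ne_zero fun h => hs 0 (Multiset.mem_cons_of_mem h) rfl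

/-- the exponential function with values in `ℝ≥0` -/
noncomputable def rex (r : ℝ) : ℝ≥0 := ⟨Real.exp r, (Real.exp_pos r).le⟩

theorem coe_rex (r : ℝ) : ((rex r : ℝ≥0) : ℝ) = Real.exp r := rfl

theorem rex_le {r s : ℝ} (h : r ≤ s) : rex r ≤ rex s := by
  rw [← NNReal.coe_le_coe, coe_rex, coe_rex]
  exact Real.exp_le_exp.2 h

open Classical in
/-- the multiplicative form -/
noncomputable def tvf (x : K → ℝ) (a : K) : ℝ≥0 := if a = 0 then 0 else rex (-x a)

theorem tvf_zero : tvf x 0 = 0 := if_pos rfl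
theorem tvf_ne {a : K} (ha : a ≠ 0) : tvf x a = rex (-x a) := if_neg ha

theorem tvf_mul (hx : IsV x) (a b : K) : tvf x (a * b) = tvf x a * tvf x b := by
  by_cases ha : a = 0
  · rw [ha, zero_mul, tvf_zero, zero_mul]
  · by_cases hb : b = 0
    · rw [hb, mul_zero, tvf_zero, mul_zero]
    · rw [tvf_ne ha, tvf_ne hb, tvf_ne (mul_ne_zero ha hb)]
      apply NNReal.eq
      rw [NNReal.coe_mul, coe_rex, coe_rex, coe_rex, ← Real.exp_add, hx.mul a b ha hb]
      congr 1
      ring

theorem tvf_add (hx : IsV x) (a b : K) : tvf x (a + b) ≤ max (tvf x a) (tvf x b) := by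
  by_cases hab : a + b = 0
  · rw [hab, tvf_zero]
    exact zero_le
  · by_cases ha : a = 0
    · rw [ha, zero_add]
      exact le_max_right _ _
    · by_cases hb : b = 0
      · rw [hb, add_zero]
        exact le_max_left _ _
      · rw [tvf_ne ha, tvf_ne hb, tvf_ne hab]
        have h1 := hx.add a b ha hb hab
        rcases le_total (x a) (x b) with h | h
        · rw [min_eq_left h] at h1
          exact le_trans (rex_le (neg_le_neg h1)) (le_max_left _ _)
        · rw [min_eq_right h] at h1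
          exact le_trans (rex_le (neg_le_neg h1)) (le_max_right _ _)

/-- the multiplicative form -/
theorem exists_toV (hx : IsV x) :
    ∃ v : Valuation K ℝ≥0, ∀ a, a ≠ 0 → (v a : ℝ) = Real.exp (-x a) := by
  refine ⟨⟨⟨⟨tvf x, tvf_zero⟩, ?_, tvf_mul hx⟩, tvf_add hx⟩, ?_⟩
  · show tvf x 1 = 1
    rw [tvf_ne one_ne_zero, V_one hx]
    apply NNReal.eq
    rw [coe_rex, neg_zero, Real.exp_zero]
    rfl
  · intro a ha
    show ((tvf x a : ℝ≥0) : ℝ) = _
    rw [tvf_ne ha, coe_rex]

/-- the additive form -/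
theorem ofV (v : Valuation K ℝ≥0) : IsV (fun a => -Real.log (v a)) where
  zero := by rw [map_zero]; simp
  mul a b ha hb := by
    have h1 : ((v a : ℝ≥0) : ℝ) ≠ 0 := by
      rw [NNReal.coe_ne_zero]
      exact (Valuation.ne_zero_iff v).2 ha
    have h2 : ((v b : ℝ≥0) : ℝ) ≠ 0 := by
      rw [NNReal.coe_ne_zero]
      exact (Valuation.ne_zero_iff v).2 hb
    rw [map_mul, NNReal.coe_mul, Real.log_mul h1 h2]
    ring
  add a b ha hb hab := by
    have h3 : (0 : ℝ) < ((v (a + b) : ℝ≥0) : ℝ) := by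
      rw [NNReal.coe_pos, zero_lt_iff]
      exact (Valuation.ne_zero_iff v).2 hab
    rcases le_total (v a) (v b) with h | h
    · have h4 : v (a + b) ≤ v b := (v.map_add a b).trans (max_le h le_rfl)
      apply (min_le_right _ _).trans
      exact neg_le_neg (Real.log_le_log h3 (by exact_mod_cast h4))
    · have h4 : v (a + b) ≤ v a := (v.map_add a b).trans (max_le le_rfl h)
      apply (min_le_left _ _).trans
      exact neg_le_neg (Real.log_le_log h3 (by exact_mod_cast h4))

/-- restriction -/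
theorem V_comp {F : Type} [Field F] (hx : IsV x) (j : F →+* K) : IsV (fun a => x (j a)) where
  zero := by rw [map_zero, hx.zero]
  mul a b ha hb := by
    rw [map_mul]
    exact hx.mul _ _ ((map_ne_zero j).2 ha) ((map_ne_zero j).2 hb)
  add a b ha hb hab := by
    rw [map_add]
    apply hx.add _ _ ((map_ne_zero j).2 ha) ((map_ne_zero j).2 hb)
    rw [← map_add]
    exact (map_ne_zero j).2 hab

end basic

section newton

variable {K : Type} [Field K] {x : K → ℝ}

theorem exists_tie (hx : IsV x) (g : K[X]) {y : K} (hy : y ≠ 0) (hg : g ≠ 0)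
    (h0 : g.eval y = 0) : ∃ i j : ℕ, i ≠ j ∧ g.coeff i ≠ 0 ∧ g.coeff j ≠ 0 ∧
      x (g.coeff i) + i * x y = x (g.coeff j) + j * x y ∧
      ∀ m, g.coeff m ≠ 0 → x (g.coeff i) + i * x y ≤ x (g.coeff m) + m * x y := by
  classical
  obtain ⟨v, hv⟩ := exists_toV hx
  have hterm : ∀ m, g.coeff m ≠ 0 → ((v (g.coeff m * y ^ m) : ℝ≥0) : ℝ) =
      Real.exp (-(x (g.coeff m) + m * x y)) := by
    intro m hm
    rw [hv _ (mul_ne_zero hm (pow_ne_zero m hy)), hx.mul _ _ hm (pow_ne_zero m hy), V_pow hx hy]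
  have hne : g.support.Nonempty := Polynomial.support_nonempty.2 hg
  obtain ⟨i, hi, hmax⟩ := g.support.exists_max_image (fun m => v (g.coeff m * y ^ m)) hne
  have hi' := Polynomial.mem_support_iff.1 hi
  have hle : ∀ m, g.coeff m ≠ 0 → x (g.coeff i) + i * x y ≤ x (g.coeff m) + m * x y := by
    intro m hm
    have h1 := hmax m (Polynomial.mem_support_iff.2 hm)
    have h2 : ((v (g.coeff m * y ^ m) : ℝ≥0) : ℝ) ≤ ((v (g.coeff i * y ^ i) : ℝ≥0) : ℝ) := by
      exact_mod_cast h1
    rw [hterm m hm, hterm i hi', Real.exp_le_exp] at h2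
    linarith
  by_contra hcon
  have hlt : ∀ m ∈ g.support \ {i}, v (g.coeff m * y ^ m) < v (g.coeff i * y ^ i) := by
    intro m hm
    rw [Finset.mem_sdiff, Finset.mem_singleton] at hm
    rcases lt_or_eq_of_le (hmax m hm.1) with h | h
    · exact h
    · exfalso
      have hm' := Polynomial.mem_support_iff.1 hm.1
      apply hcon
      refine ⟨i, m, fun h => hm.2 h.symm, hi', hm', ?_, hle⟩
      have h2 : ((v (g.coeff m * y ^ m) : ℝ≥0) : ℝ) = ((v (g.coeff i * y ^ i) : ℝ≥0) : ℝ) := by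
        exact_mod_cast h
      rw [hterm m hm', hterm i hi', Real.exp_eq_exp] at h2
      linarith
  have h3 := Valuation.map_sum_eq_of_lt v hi hlt
  rw [Polynomial.eval_eq_sum, Polynomial.sum_def] at h0
  rw [h0, map_zero] at h3
  exact mul_ne_zero hi' (pow_ne_zero i hy) ((map_eq_zero v).1 h3.symm)

/-- one strictly dominating term -/
def Dom {Γ : Type} [LinearOrderedCommGroupWithZero Γ] (v : Valuation K Γ) (c : Γ) (g : K[X]) :
    Prop := ∃ m : ℕ, ∀ j : ℕ, j ≠ m → v (g.coeff j) * c ^ j < v (g.coeff m) * c ^ m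

section dom

variable {Γ : Type} [LinearOrderedCommGroupWithZero Γ] {v : Valuation K Γ} {c : Γ}

theorem dom_C {a : K} (ha : a ≠ 0) : Dom v c (C a) := by
  refine ⟨0, fun j hj => ?_⟩
  rw [coeff_C_ne_zero hj, map_zero, zero_mul, coeff_C_zero, pow_zero, mul_one, zero_lt_iff]
  exact (Valuation.ne_zero_iff v).2 ha

theorem dom_X (hc : c ≠ 0) {r : K} (hr : v r ≠ c) : Dom v c (X - C r) := by
  have h0 : (X - C r).coeff 0 = -r := by simp
  have h1 : (X - C r).coeff 1 = 1 := by simp
  have h2 : ∀ j, j ≠ 0 → j ≠ 1 → (X - C r).coeff j = 0 := by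
    intro j hj0 hj1
    rw [coeff_sub, coeff_X_of_ne_one hj1, coeff_C_ne_zero hj0, sub_zero]
  rcases lt_or_gt_of_ne hr with h | h
  · refine ⟨1, fun j hj => ?_⟩
    by_cases hj0 : j = 0
    · rw [hj0, h0, h1, Valuation.map_neg, map_one, pow_zero, pow_one, mul_one, one_mul]
      exact h
    · rw [h2 j hj0 hj, h1, map_zero, zero_mul, map_one, one_mul, pow_one, zero_lt_iff]
      exact hc
  · refine ⟨0, fun j hj => ?_⟩
    by_cases hj1 : j = 1
    · rw [hj1, h0, h1, Valuation.map_neg, map_one, pow_zero, pow_one, mul_one, one_mul]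
      exact h
    · rw [h2 j hj hj1, h0, Valuation.map_neg, map_zero, zero_mul, pow_zero, mul_one]
      exact lt_of_le_of_lt zero_le h

theorem dom_mul (hc : c ≠ 0) {p q : K[X]} (hp : Dom v c p) (hq : Dom v c q) :
    Dom v c (p * q) := by
  classical
  obtain ⟨a, ha⟩ := hp
  obtain ⟨b, hb⟩ := hq
  have hpa : v (p.coeff a) * c ^ a ≠ 0 := by
    have := ha (a + 1) (by omega)
    exact (lt_of_le_of_lt zero_le this).ne'
  have hqb : v (q.coeff b) * c ^ b ≠ 0 := by
    have := hb (b + 1) (by omega)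
    exact (lt_of_le_of_lt zero_le this).ne'
  have hle1 : ∀ i, v (p.coeff i) * c ^ i ≤ v (p.coeff a) * c ^ a := by
    intro i
    by_cases h : i = a
    · rw [h]
    · exact (ha i h).le
  have hle2 : ∀ i, v (q.coeff i) * c ^ i ≤ v (q.coeff b) * c ^ b := by
    intro i
    by_cases h : i = b
    · rw [h]
    · exact (hb i h).le
  have hprod : ∀ s t : ℕ, v (p.coeff s * q.coeff t) * c ^ (s + t) =
      (v (p.coeff s) * c ^ s) * (v (q.coeff t) * c ^ t) := by
    intro s t
    rw [map_mul, pow_add]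
    exact mul_mul_mul_comm _ _ _ _
  have hlt : ∀ s t : ℕ, (s, t) ≠ (a, b) → v (p.coeff s * q.coeff t) * c ^ (s + t) <
      (v (p.coeff a) * c ^ a) * (v (q.coeff b) * c ^ b) := by
    intro s t hst
    rw [hprod]
    by_cases hs : s = a
    · have ht : t ≠ b := fun h => hst (by rw [hs, h])
      rw [hs]
      exact mul_lt_mul_of_pos_left (hb t ht) (zero_lt_iff.2 hpa)
    · exact lt_of_le_of_lt (mul_le_mul_right (hle2 t) _)
        (mul_lt_mul_of_pos_right (ha s hs) (zero_lt_iff.2 hqb))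
  have hcp : ∀ n : ℕ, 0 < c ^ n := fun n => zero_lt_iff.2 (pow_ne_zero n hc)
  refine ⟨a + b, ?_⟩
  have hmain : v ((p * q).coeff (a + b)) * c ^ (a + b) =
      (v (p.coeff a) * c ^ a) * (v (q.coeff b) * c ^ b) := by
    rw [coeff_mul]
    have hmem : (a, b) ∈ Finset.HasAntidiagonal.antidiagonal (a + b) := Finset.HasAntidiagonal.mem_antidiagonal.2 rfl
    rw [Valuation.map_sum_eq_of_lt v hmem, hprod]
    intro i hi
    rw [Finset.mem_sdiff, Finset.HasAntidiagonal.mem_antidiagonal, Finset.mem_singleton] at hi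
    have h1 := hlt i.1 i.2 hi.2
    rw [hi.1, ← hprod a b] at h1
    exact lt_of_mul_lt_mul_right h1 (hcp _).le
  intro j hj
  rw [hmain, coeff_mul]
  have h2 : v (∑ z ∈ Finset.HasAntidiagonal.antidiagonal j, p.coeff z.1 * q.coeff z.2) <
      (v (p.coeff a) * c ^ a) * (v (q.coeff b) * c ^ b) * (c ^ j)⁻¹ := by
    apply Valuation.map_sum_lt v (mul_ne_zero (mul_ne_zero hpa hqb) (inv_ne_zero (hcp j).ne'))
    intro i hi
    rw [Finset.HasAntidiagonal.mem_antidiagonal] at hi
    have h1 := hlt i.1 i.2 (by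
      intro h
      apply hj
      rw [← hi]
      exact congrArg (fun z : ℕ × ℕ => z.1 + z.2) h)
    rw [hi] at h1
    rw [lt_mul_inv_iff₀ (hcp j)]
    exact h1
  rw [lt_mul_inv_iff₀ (hcp j)] at h2
  exact h2

end dom

theorem exists_root (hx : IsV x) {g : K[X]} (hs : g.Splits) {γ : ℝ} {i j : ℕ} (hij : i ≠ j)
    (hi : g.coeff i ≠ 0) (hj : g.coeff j ≠ 0)
    (h1 : x (g.coeff i) + i * γ = x (g.coeff j) + j * γ)
    (h2 : ∀ m, g.coeff m ≠ 0 → x (g.coeff i) + i * γ ≤ x (g.coeff m) + m * γ) :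
    ∃ r ∈ g.roots, r ≠ 0 ∧ x r = γ := by
  obtain ⟨v, hv⟩ := exists_toV hx
  by_contra hcon
  have hg0 : g ≠ 0 := by
    rintro rfl
    exact hi (coeff_zero i)
  obtain ⟨c, hc⟩ : ∃ c : ℝ≥0, (c : ℝ) = Real.exp (-γ) := ⟨rex (-γ), rfl⟩
  have hc0 : c ≠ 0 := by
    rw [← NNReal.coe_ne_zero, hc]
    exact (Real.exp_pos _).ne'
  have hroots : ∀ s : Multiset K, (∀ r ∈ s, v r ≠ c) → Dom v c (s.map fun a => X - C a).prod := by
    intro s
    induction s using Multiset.induction_on with
    | empty =>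
      intro _
      rw [Multiset.map_zero, Multiset.prod_zero, ← C_1]
      exact dom_C one_ne_zero
    | cons a s ih =>
      intro h
      rw [Multiset.map_cons, Multiset.prod_cons]
      exact dom_mul hc0 (dom_X hc0 (h a (Multiset.mem_cons_self _ _)))
        (ih fun r hr => h r (Multiset.mem_cons_of_mem hr))
  have hdom : Dom v c g := by
    rw [hs.eq_prod_roots]
    apply dom_mul hc0 (dom_C (leadingCoeff_ne_zero.2 hg0))
    apply hroots
    intro r hr hrc
    apply hcon
    have hr0 : r ≠ 0 := by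
      rintro rfl
      rw [map_zero] at hrc
      exact hc0 hrc.symm
    refine ⟨r, hr, hr0, ?_⟩
    have h3 := hv r hr0
    rw [hrc, hc, Real.exp_eq_exp] at h3
    linarith
  obtain ⟨m, hm⟩ := hdom
  have hterm : ∀ n, g.coeff n ≠ 0 → ((v (g.coeff n) * c ^ n : ℝ≥0) : ℝ) =
      Real.exp (-(x (g.coeff n) + n * γ)) := by
    intro n hn
    rw [NNReal.coe_mul, NNReal.coe_pow, hv _ hn, hc, ← Real.exp_nat_mul, ← Real.exp_add]
    congr 1
    ring
  have hm0 : g.coeff m ≠ 0 := by
    intro h
    have := hm (m + 1) (by omega)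
    rw [h, map_zero, zero_mul] at this
    exact absurd this (not_lt.2 zero_le)
  have key : ∀ n, n ≠ m → g.coeff n ≠ 0 → x (g.coeff m) + m * γ < x (g.coeff n) + n * γ := by
    intro n hn hn0
    have h3 := hm n hn
    have h4 : ((v (g.coeff n) * c ^ n : ℝ≥0) : ℝ) < ((v (g.coeff m) * c ^ m : ℝ≥0) : ℝ) := by
      exact_mod_cast h3
    rw [hterm n hn0, hterm m hm0, Real.exp_lt_exp] at h4
    linarith
  have h3 := h2 m hm0
  by_cases him : i = m
  · have h4 := key j (fun h => hij (by rw [him, h])) hj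
    rw [← him] at h4
    linarith
  · have h4 := key i him hi
    linarith

end newton

end Pool.Agent.FrP
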