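import Pool.Agent.Lib.MP_305fdd_al.Fr.P.Basic

/-!
# MP_305fdd_al, F_r: perturbation of real valuations, part 3: Gauss valuations
-/

set_option autoImplicit false

namespace Pool.Agent.FrP

open Pool.Agent.F2Ch (IsV Triv)
open Polynomial
open scoped NNReal

section gauss

variable {Om K : Type} [Field Om] [Field K] [Algebra Om K]

/-- the absolute value -/
noncomputable def av (v : Valuation Om ℝ≥0) : AbsoluteValue Om ℝ where
  toFun a := v a
  map_mul' a b := by rw [map_mul, NNReal.coe_mul]
  nonneg' a := (v a).2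
  eq_zero' a := by
    rw [NNReal.coe_eq_zero]
    exact map_eq_zero v
  add_le' a b := by
    have h1 : v (a + b) ≤ v a + v b :=
      (v.map_add a b).trans (max_le (le_add_of_nonneg_right zero_le)
        (le_add_of_nonneg_left zero_le))
    exact_mod_cast h1

theorem av_apply (v : Valuation Om ℝ≥0) (a : Om) : av v a = v a := rfl

theorem av_na (v : Valuation Om ℝ≥0) : IsNonarchimedean (av v) := by
  intro a b
  rw [av_apply, av_apply, av_apply]
  have h1 := v.map_add a b
  exact_mod_cast h1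

/-- the Gauss norm in `ℝ≥0` -/
noncomputable def gf (v : Valuation Om ℝ≥0) (c : ℝ≥0) (p : Om[X]) : ℝ≥0 :=
  ⟨p.gaussNorm (av v) c, p.gaussNorm_nonneg (av v) c.coe_nonneg⟩

theorem coe_gf (v : Valuation Om ℝ≥0) (c : ℝ≥0) (p : Om[X]) :
    ((gf v c p : ℝ≥0) : ℝ) = p.gaussNorm (av v) c := rfl

/-- the Gauss valuation on the polynomial ring -/
noncomputable def gval (v : Valuation Om ℝ≥0) (c : ℝ≥0) (hc : 0 < c) : Valuation Om[X] ℝ≥0 where
  toFun p := gf v c p
  map_zero' := by
    apply NNReal.eq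
    rw [coe_gf]
    exact gaussNorm_zero (av v) (c : ℝ)
  map_one' := by
    apply NNReal.eq
    rw [coe_gf, ← C_1, gaussNorm_C, map_one]
    rfl
  map_mul' p q := by
    apply NNReal.eq
    rw [NNReal.coe_mul, coe_gf, coe_gf, coe_gf]
    exact gaussNorm_mul (av_na v) hc p q
  map_add_le_max' p q := by
    show gf v c (p + q) ≤ max (gf v c p) (gf v c q)
    have h1 := isNonarchimedean_gaussNorm (av v) (av_na v) (c := c) c.coe_nonneg p q
    rw [← coe_gf, ← coe_gf, ← coe_gf, ← NNReal.coe_max, NNReal.coe_le_coe] at h1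
    exact h1

theorem gval_apply (v : Valuation Om ℝ≥0) (c : ℝ≥0) (hc : 0 < c) (p : Om[X]) :
    ((gval v c hc p : ℝ≥0) : ℝ) = p.gaussNorm (av v) c := rfl

theorem gval_C (v : Valuation Om ℝ≥0) (c : ℝ≥0) (hc : 0 < c) (a : Om) :
    gval v c hc (C a) = v a := by
  apply NNReal.eq
  rw [gval_apply, gaussNorm_C, av_apply]

theorem gval_X (v : Valuation Om ℝ≥0) (c : ℝ≥0) (hc : 0 < c) (r : Om) :
    gval v c hc (X - C r) = max c (v r) := by
  have h0 : (X - C r).coeff 0 = -r := by simp
  have h1 : (X - C r).coeff 1 = 1 := by simp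
  have h2 : ∀ j, j ≠ 0 → j ≠ 1 → (X - C r).coeff j = 0 := by
    intro j hj0 hj1
    rw [coeff_sub, coeff_X_of_ne_one hj1, coeff_C_of_ne_zero hj0, sub_zero]
  apply NNReal.eq
  rw [gval_apply, NNReal.coe_max]
  apply le_antisymm
  · obtain ⟨i, hi⟩ := exists_eq_gaussNorm (av v) (c : ℝ) (X - C r)
    rw [hi]
    by_cases hi0 : i = 0
    · rw [hi0, h0, pow_zero, mul_one, AbsoluteValue.map_neg, av_apply]
      exact le_max_right _ _
    · by_cases hi1 : i = 1
      · rw [hi1, h1, pow_one, map_one, one_mul]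
        exact le_max_left _ _
      · rw [h2 i hi0 hi1, map_zero, zero_mul]
        exact le_max_of_le_left c.2
  · apply max_le
    · have h3 := le_gaussNorm (av v) (X - C r) (c := (c : ℝ)) c.2 1
      rw [h1, pow_one, map_one, one_mul] at h3
      exact h3
    · have h3 := le_gaussNorm (av v) (X - C r) (c := (c : ℝ)) c.2 0
      rw [h0, pow_zero, mul_one, AbsoluteValue.map_neg, av_apply] at h3
      exact h3

theorem gval_ne (v : Valuation Om ℝ≥0) (c : ℝ≥0) (hc : 0 < c) {p : Om[X]} (hp : p ≠ 0) :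
    gval v c hc p ≠ 0 := by
  intro h
  apply hp
  have h1 : ((gval v c hc p : ℝ≥0) : ℝ) = 0 := by rw [h]; rfl
  rw [gval_apply] at h1
  exact (gaussNorm_eq_zero_iff (av v) p
    (fun a ha => (AbsoluteValue.eq_zero (av v)).1 ha) (by exact_mod_cast hc)).1 h1

/-- Gauss valuations -/
theorem exists_gauss {x : Om → ℝ} (hx : IsV x) (γ : ℝ) {t : K} (ht : Transcendental Om t)
    (hf : ∀ z : K, ∃ a b : Om[X], aeval t b ≠ 0 ∧ z * aeval t b = aeval t a) :
    ∃ x' : K → ℝ, IsV x' ∧ (∀ a, x' (algebraMap Om K a) = x a) ∧ x' t = γ ∧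
      ∀ r : Om, r ≠ 0 → x' (t - algebraMap Om K r) = min γ (x r) := by
  obtain ⟨v, hv⟩ := exists_toV hx
  have hc0 : (0 : ℝ≥0) < rex (-γ) := by
    rw [← NNReal.coe_pos, coe_rex]
    exact Real.exp_pos _
  let _ : Algebra Om[X] K := (aeval (R := Om) t).toRingHom.toAlgebra
  have hinj : Function.Injective (aeval (R := Om) t) := transcendental_iff_injective.1 ht
  have halg : ∀ p : Om[X], algebraMap Om[X] K p = aeval t p := fun p => rfl
  have hfr : IsFractionRing Om[X] K := by
    show IsLocalization _ K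
    rw [isLocalization_iff]
    refine ⟨?_, ?_, ?_⟩
    · intro y
      rw [halg, isUnit_iff_ne_zero]
      intro h
      have h1 : (y : Om[X]) = 0 := hinj (by rw [h, map_zero])
      exact nonZeroDivisors.ne_zero y.2 h1
    · intro z
      obtain ⟨a, b, hb, hz⟩ := hf z
      have hb0 : b ≠ 0 := by
        rintro rfl
        rw [map_zero] at hb
        exact hb rfl
      exact ⟨(a, ⟨b, mem_nonZeroDivisors_of_ne_zero hb0⟩), hz⟩
    · intro a b hab
      exact ⟨1, by rw [hinj hab]⟩
  have hS : nonZeroDivisors Om[X] ≤ (gval v (rex (-γ)) hc0).supp.primeCompl := by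
    intro p hp hp2
    exact gval_ne v _ hc0 (nonZeroDivisors.ne_zero hp) hp2
  set w := (gval v (rex (-γ)) hc0).extendToLocalization hS K with hw
  have hwp : ∀ p : Om[X], w (aeval t p) = gval v (rex (-γ)) hc0 p := by
    intro p
    rw [← halg, hw]
    exact Valuation.extendToLocalization_apply_map_apply _ _ _ _
  refine ⟨fun z => -Real.log (w z), ofV w, ?_, ?_, ?_⟩
  · intro a
    show -Real.log (w (algebraMap Om K a)) = x a
    have h1 : algebraMap Om K a = aeval t (C a) := (aeval_C t a).symm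
    rw [h1, hwp, gval_C]
    by_cases ha : a = 0
    · rw [ha, map_zero, hx.zero]
      simp
    · rw [hv a ha, Real.log_exp, neg_neg]
  · show -Real.log (w t) = γ
    have h1 : t = aeval t (X - C (0 : Om)) := by simp
    have h2 : w t = w (aeval t (X - C (0 : Om))) := congrArg w h1
    rw [h2, hwp, gval_X, map_zero, max_eq_left zero_le, coe_rex, Real.log_exp, neg_neg]
  · intro r hr
    show -Real.log (w (t - algebraMap Om K r)) = min γ (x r)
    have h1 : t - algebraMap Om K r = aeval t (X - C r) := by simp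
    rw [h1, hwp, gval_X]
    have h2 : v r = rex (-x r) := by
      apply NNReal.eq
      rw [hv r hr, coe_rex]
    rw [h2]
    rcases le_total γ (x r) with h3 | h3
    · rw [max_eq_left (rex_le (neg_le_neg h3)), min_eq_left h3, coe_rex, Real.log_exp, neg_neg]
    · rw [max_eq_right (rex_le (neg_le_neg h3)), min_eq_right h3, coe_rex, Real.log_exp, neg_neg]

end gauss

end Pool.Agent.FrP
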